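import Pool.Agent.HUK.Stmts

/-!
# Squad HUK, row SPC (helper70)
-/

set_option autoImplicit false

namespace Pool.Agent.HUK.H70

open Polynomial

theorem card_mono {P Q : ℕ → Prop} {X : ℕ} (h : ∀ κ, P κ → Q κ) :
    Nat.card {κ : ℕ // κ < X ∧ P κ} ≤ Nat.card {κ : ℕ // κ < X ∧ Q κ} := by
  have hf : Finite {κ : ℕ // κ < X ∧ Q κ} :=
    Finite.of_injective (fun z : {κ : ℕ // κ < X ∧ Q κ} => (⟨z.1, z.2.1⟩ : Fin X))
      (fun a b hab => Subtype.ext (congrArg Fin.val hab))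
  exact Nat.card_le_card_of_injective
    (fun z : {κ : ℕ // κ < X ∧ P κ} => (⟨z.1, z.2.1, h _ z.2.2⟩ : {κ : ℕ // κ < X ∧ Q κ}))
    (fun a b hab => Subtype.ext (congrArg (fun w : {κ : ℕ // κ < X ∧ Q κ} => w.1) hab))

theorem card_union {ι : Type} [Fintype ι] (P : ι → ℕ → Prop) (X : ℕ) :
    Nat.card {κ : ℕ // κ < X ∧ ∃ i, P i κ} ≤ ∑ i, Nat.card {κ : ℕ // κ < X ∧ P i κ} := by
  classical
  have hf : ∀ i, Finite {κ : ℕ // κ < X ∧ P i κ} := fun i =>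
    Finite.of_injective (fun z : {κ : ℕ // κ < X ∧ P i κ} => (⟨z.1, z.2.1⟩ : Fin X))
      (fun a b hab => Subtype.ext (congrArg Fin.val hab))
  have h1 : ∑ i, Nat.card {κ : ℕ // κ < X ∧ P i κ} =
      Nat.card (Σ i, {κ : ℕ // κ < X ∧ P i κ}) := by
    have : ∀ i, Fintype {κ : ℕ // κ < X ∧ P i κ} := fun i => Fintype.ofFinite _
    rw [Nat.card_eq_fintype_card, Fintype.card_sigma]
    exact Finset.sum_congr rfl fun i _ => Nat.card_eq_fintype_card
  rw [h1]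
  refine Nat.card_le_card_of_injective
    (fun z : {κ : ℕ // κ < X ∧ ∃ i, P i κ} =>
      (⟨z.2.2.choose, z.1, z.2.1, z.2.2.choose_spec⟩ : Σ i, {κ : ℕ // κ < X ∧ P i κ})) ?_
  intro a b hab
  apply Subtype.ext
  have h2 := congrArg (fun w : (Σ i, {κ : ℕ // κ < X ∧ P i κ}) => w.2.1) hab
  exact h2

theorem spc : SpcStmt := by
  intro E _ _ δ
  refine ⟨?_, ?_, ?_, ?_, ?_⟩
  · intro S T hST hT m A
    obtain ⟨C, hC⟩ := hT m A
    refine ⟨C, fun X hX x hx => le_trans ?_ (hC X hX x hx)⟩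
    exact_mod_cast card_mono (fun κ hκ => hST hκ)
  · intro ι _ S h m A
    have _ : Fintype ι := Fintype.ofFinite ι
    choose C hC using fun i => h i m A
    refine ⟨∑ i, C i, fun X hX x hx => ?_⟩
    have h1 := card_union (fun (i : ι) (κ : ℕ) => x + (κ : E) ∈ S i) X
    have h2 : (Nat.card {κ : ℕ // κ < X ∧ x + (κ : E) ∈ ⋃ i, S i} : ℝ) ≤
        ∑ i, (Nat.card {κ : ℕ // κ < X ∧ x + (κ : E) ∈ S i} : ℝ) := by
      have h3 : Nat.card {κ : ℕ // κ < X ∧ x + (κ : E) ∈ ⋃ i, S i} ≤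
          ∑ i, Nat.card {κ : ℕ // κ < X ∧ x + (κ : E) ∈ S i} := by
        refine le_trans (card_mono fun κ hκ => ?_) h1
        exact Set.mem_iUnion.1 hκ
      exact_mod_cast h3
    rw [Finset.sum_mul]
    exact h2.trans (Finset.sum_le_sum fun i _ => hC i X hX x hx)
  · intro δ' hδ S h m A
    obtain ⟨C, hC⟩ := h m A
    refine ⟨|C|, fun X hX x hx => (hC X hX x hx).trans ?_⟩
    have hX1 : (1 : ℝ) ≤ X := by exact_mod_cast hX
    calc C * (X : ℝ) ^ (1 - δ) ≤ |C| * (X : ℝ) ^ (1 - δ) :=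
          mul_le_mul_of_nonneg_right (le_abs_self C) (Real.rpow_nonneg (by linarith) _)
      _ ≤ |C| * (X : ℝ) ^ (1 - δ') := by
          refine mul_le_mul_of_nonneg_left ?_ (abs_nonneg C)
          exact Real.rpow_le_rpow_of_exponent_le hX1 (by linarith)
  · intro hδ S h m A
    obtain ⟨C, hC⟩ := h m A
    refine ⟨⌈C⌉₊, δ, hδ, fun X hX x hx => (hC X hX x hx).trans ?_⟩
    refine mul_le_mul_of_nonneg_right (Nat.le_ceil C) (Real.rpow_nonneg (by positivity) _)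
  · intro m A
    refine ⟨0, fun X hX x hx => ?_⟩
    have h1 : IsEmpty {κ : ℕ // κ < X ∧ x + (κ : E) ∈ (∅ : Set E)} := ⟨fun z => z.2.2⟩
    rw [Nat.card_of_isEmpty, Nat.cast_zero, zero_mul]

end Pool.Agent.HUK.H70
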