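import Pool.Agent.HUK.Stmts
import Pool.Agent.Helper45_HIK.DEK

/-!
# Squad HUK, row SRU (helper70): the specialised representations at all algebraic points
-/

set_option autoImplicit false

namespace Pool.Agent.HUK.H70

open Polynomial NumberField Matrix Pool.Agent.MTL Pool.Agent.MTL.H34 Pool.Agent.Helper78_MT
  Pool.Agent.HIK

/-- row SRU -/
theorem sru (sbv : SbvStmt) : SruStmt := by
  intro d _ _ ℓ _ ρ hρ
  obtain ⟨S, hS, h⟩ := sbv ⊤ isOpen_univ d ℓ (ρ.comp (⊤ : Subgroup GT).subtype)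
    (hρ.comp continuous_subtype_val)
  refine ⟨S, hS, fun a ha ρa hsp => ?_⟩
  obtain ⟨π, hπ, hπ2⟩ := hsp
  refine ⟨?_, ?_⟩
  · rintro _ ⟨τ, rfl⟩
    obtain ⟨σ, hσ⟩ := (Pool.Agent.HIK.H45.dek a π hπ).2 (τ : GQ)
      (MulAction.mem_stabilizer_iff.1 τ.2)
    exact ⟨σ, (hπ2 σ τ hσ).symm⟩
  · obtain ⟨Γ, hΓ, h1⟩ := h π (by rw [hπ]; exact ha)
    refine ⟨Γ.map (Subgroup.topEquiv : (⊤ : Subgroup GT) ≃* GT).toMonoidHom, ⟨?_⟩, ?_⟩
    · have h2 := Subgroup.index_map_equiv Γ (Subgroup.topEquiv : (⊤ : Subgroup GT) ≃* GT)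
      have h3 := hΓ.index_ne_zero
      rw [← h2] at h3
      exact h3
    · rintro _ ⟨_, ⟨γ, hγ, rfl⟩, rfl⟩
      obtain ⟨σ, ⟨τ, hτ⟩, hσ⟩ := h1 γ hγ
      have h3 : (σ : GT) • (algebraMap ℚ[X] BB X) = algebraMap ℚ[X] BB X := by
        apply Subtype.ext
        change (σ : GT) (algebraMap ℚ[X] Om X) = algebraMap ℚ[X] Om X
        rw [IsScalarTower.algebraMap_apply ℚ[X] (RatFunc ℚ) Om]
        exact (σ : GT).commutes _
      have h4 : τ • (a : QB) = a := by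
        have h5 := hτ (algebraMap ℚ[X] BB X)
        rw [h3, hπ] at h5
        exact h5.symm
      refine ⟨⟨τ, MulAction.mem_stabilizer_iff.2 h4⟩, ?_⟩
      rw [hπ2 σ ⟨τ, MulAction.mem_stabilizer_iff.2 h4⟩ hτ]
      exact hσ

end Pool.Agent.HUK.H70
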